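import Mathlib
import Pool.Agent.R145.Nest.Lower

/-!
MP_924435_co, Q1: the largest `K` for which a `K`-good sequence exists is finite, with explicit
lower and upper bounds; there is no good infinite sequence.
-/

namespace Pool.Agent.Results.MP_924435_co.FiniteBound

open Pool.Agent.R145.Nest

/-- The supremum of those `K` for which a `K`-good sequence exists. -/
noncomputable def Kstar : ℕ∞ := ⨆ K ∈ {K : ℕ | 1 ≤ K ∧ ∃ x, KGood K x}, (K : ℕ∞)

/-- An infinite sequence is good if each initial segment of length `K^2` is `K`-good. -/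
def Good (x : ℕ → ℝ × ℝ) : Prop := ∀ K, 1 ≤ K → KGood K (fun n => x n.1)

theorem upper {K : ℕ} (hK : 96 ≤ K) : ¬ ∃ x, KGood K x := by
  intro h
  -- restriction to an initial segment
  have h96 : ∃ x, KGood 96 x := by
    obtain ⟨x, hx⟩ := h
    have hle : 96 ^ 2 ≤ K ^ 2 := Nat.pow_le_pow_left hK 2
    refine ⟨fun n => x ⟨n.1, lt_of_lt_of_le n.2 hle⟩, fun n => hx.1 _, ?_⟩
    intro k hk1 hk i hi j hj
    obtain ⟨n, ⟨h1, h2⟩, hu⟩ := hx.2 k hk1 (hk.trans hK) i hi j hj
    have hk2 : k ^ 2 ≤ 96 ^ 2 := Nat.pow_le_pow_left hk 2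
    refine ⟨⟨n.1, lt_of_lt_of_le h1 hk2⟩, ⟨h1, h2⟩, ?_⟩
    rintro m ⟨hm1, hm2⟩
    have := hu ⟨m.1, lt_of_lt_of_le m.2 hle⟩ ⟨hm1, hm2⟩
    have h5 : m.1 = n.1 := by
      have h6 := congrArg (fun t : Fin (K ^ 2) => t.1) this
      exact h6
    exact Fin.ext h5
  refine no_good (K := 96) (k0 := 63) (k1 := 84) (a := 4) (i := 24) (h := 40) (c := 18) (g := 30)
    (by norm_num) (by norm_num) (by norm_num) (by norm_num) (by norm_num) (by norm_num)
    (by norm_num) (by norm_num) (by norm_num) (by norm_num) ?_ h96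
  intro p h1 h2 h3 h4 k hk1 hk2
  exact check_spec cert 24 84 28 84 40 84 41 84 (by norm_num) (by norm_num) (by norm_num)
    (by norm_num) cert_ok p (by exact_mod_cast h1) (by exact_mod_cast h2) (by exact_mod_cast h3)
    (by exact_mod_cast h4) k hk1 hk2

theorem result :
    -- no `K`-good sequence for `K ≥ 96`
    (∀ K : ℕ, 96 ≤ K → ¬ ∃ x, KGood K x) ∧
    -- a `25`-good sequence exists
    (∃ x, KGood 25 x) ∧
    -- bounds for the supremum
    (25 : ℕ∞) ≤ Kstar ∧ Kstar ≤ 95 ∧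
    -- no good infinite sequence
    ¬ ∃ x : ℕ → ℝ × ℝ, Good x := by
  refine ⟨fun K hK => upper hK, ⟨seq, seq_good⟩, ?_, ?_, ?_⟩
  · refine le_iSup₂_of_le 25 ⟨by norm_num, seq, seq_good⟩ ?_
    norm_num
  · refine iSup₂_le ?_
    rintro K ⟨_, hK⟩
    by_contra hcon
    push Not at hcon
    have h96 : 96 ≤ K := by
      have : ((95 : ℕ) : ℕ∞) < (K : ℕ∞) := by exact_mod_cast hcon
      have := Nat.cast_lt.1 this
      omega
    exact upper h96 hK
  · rintro ⟨x, hx⟩
    exact upper (le_refl 96) ⟨_, hx 96 (by norm_num)⟩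

end Pool.Agent.Results.MP_924435_co.FiniteBound
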